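import Mathlib

namespace Pool.Agent.Results.MP_cd64ef_nt.Counter

open Finset Pointwise

/-- `A +_t B`: the elements of `A + B` with at least `t` representations `a + b` -/
def pop {G : Type} [AddCommGroup G] [DecidableEq G] (A B : Finset G) (t : ℕ) : Finset G :=
  (A + B).filter fun g => t ≤ ((A ×ˢ B).filter fun p => p.1 + p.2 = g).card

/-- the stabilizer `{e | e + X = X}` -/
def stab {G : Type} [AddCommGroup G] [DecidableEq G] (X : Finset G) : Set G :=
  {e | X.image (fun x => e + x) = X}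

theorem result : ¬ ∀ (t : ℕ), 1 ≤ t → ∀ (G : Type) [AddCommGroup G] [DecidableEq G]
    (A B : Finset G), t ≤ A.card → t ≤ B.card →
    (∑ i ∈ Icc 1 t, ((pop A B i).card : ℤ)) < t * A.card + t * B.card - t ^ 2 →
    ∀ s u : ℕ, t = s * (stab (pop A B t)).ncard + u → 1 ≤ u → u ≤ (stab (pop A B t)).ncard →
      (∃ A' ⊆ A, ∃ B' ⊆ B, (A \ A').card + (B \ B').card < u ∧
        A' + B' = pop A' B' u ∧ pop A' B' u = pop A B u ∧
        stab (A' + B') = stab (pop A B t) ∧ stab (pop A' B' u) = stab (pop A B t)) ∧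
      (t * A.card + t * B.card - t ^ 2 - u * ((stab (pop A B t)).ncard - u) : ℤ) ≤
        ∑ i ∈ Icc 1 t, ((pop A B i).card : ℤ) := by
  intro h
  have e : stab (pop ({0, 1, 3, 4} : Finset (ZMod 6)) {0, 1, 3, 4} 3) = ({0, 3} : Finset (ZMod 6)) := by
    ext x
    simp only [stab, Set.mem_setOf_eq, mem_coe]
    revert x
    decide
  have c : (stab (pop ({0, 1, 3, 4} : Finset (ZMod 6)) {0, 1, 3, 4} 3)).ncard = 2 := by
    rw [e, Set.ncard_coe_finset]; decide
  obtain ⟨⟨A', -, B', -, -, -, h1, -, h2⟩, -⟩ := h 3 (by norm_num) (ZMod 6) {0, 1, 3, 4} {0, 1, 3, 4}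
    (by decide) (by decide) (by decide) 1 1 (by rw [c]) le_rfl (by rw [c]; norm_num)
  rw [h1, e] at h2
  have : (1 : ZMod 6) ∈ stab (pop ({0, 1, 3, 4} : Finset (ZMod 6)) {0, 1, 3, 4} 1) := by
    simp only [stab, Set.mem_setOf_eq]
    decide
  rw [h2] at this
  revert this
  simp only [mem_coe]
  decide

end Pool.Agent.Results.MP_cd64ef_nt.Counter
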